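import Pool.Agent.R775.SSE2.Main2

/-!
# MP_993212_an: irreducible `2 × 2` matrices over `ℕ` with an eigenvalue `1` or `-1`

`Bm e f x` is the matrix with rows `(x + e, x)`, `(f - x, f - x + e)`; it has the eigenvalues
`f + e` and `e`. `Chain l` is a chain of `l` elementary equivalences through matrices of any size,
`Chain2 l` one through `2 × 2` matrices, `SSE` strong shift equivalence over `ℕ`, `IsSE k A B l R S`
a shift equivalence of lag `l` over the semiring `k`, `SE` its existence for some `l ≥ 1`, `toZ` the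
same matrix over `ℤ`. Let `e = ±1`.

* For `1 ≤ x, y < f` and `l ≥ 1` the following are equivalent: a shift equivalence over `ℤ` of lag
  `l`, one over `ℕ` of lag `l`, a chain of `l` elementary equivalences, such a chain through
  `2 × 2` matrices, a divisor `s` of `(f + e) ^ l` with `s x ≡ ± y` modulo `f`.
* Every matrix `e + u wᵀ` with positive `u`, `w`, `w` primitive, is joined to some `Bm e f x` with
  `f = u · w`, `w₁ x ≡ -u₂`, `w₂ x ≡ u₁` modulo `f`, by at most `w₁ + w₂ - 2` elementary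
  equivalences through `2 × 2` matrices.
* For irreducible `2 × 2` matrices `A`, `B` over `ℕ` such that `1` or `-1` is an eigenvalue of `A`,
  strong shift equivalence over `ℕ`, shift equivalence over `ℕ` and shift equivalence over `ℤ`
  coincide, and chains through `2 × 2` matrices suffice.
* The least lag is unbounded: for a prime `q > 2 ^ (2 m - 1)` and `f = 2 q - e` the matrices
  `Bm e f 1` and `Bm e f (2 ^ m)` are joined by a chain of `m` elementary equivalences, and every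
  shift equivalence between them, even over `ℤ`, has lag at least `m`.
-/

set_option autoImplicit false

namespace Pool.Agent.Results.MP_993212_an.EigenvalueOne

open Matrix Pool.Agent.R775.SSE.Two
open Pool.Agent.R775.SSE (Chain SSE SE IsSE)

theorem result :
    (∀ (e : ℤ) (f x y l : ℕ), (e = 1 ∨ e = -1) → 1 ≤ x → x < f → 1 ≤ y → y < f → 1 ≤ l →
      List.TFAE [Chain2 l (Bm e f x) (Bm e f y), Chain l ⟨2, Bm e f x⟩ ⟨2, Bm e f y⟩,
        ∃ R S : Matrix (Fin 2) (Fin 2) ℕ, IsSE ℕ (Bm e f x) (Bm e f y) l R S,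
        ∃ R S : Matrix (Fin 2) (Fin 2) ℤ, IsSE ℤ (Pool.Agent.R775.SSE.toZ (Bm e f x))
          (Pool.Agent.R775.SSE.toZ (Bm e f y)) l R S,
        ∃ s : ℕ, (s : ℤ) ∣ ((f : ℤ) + e) ^ l ∧
          ((s * x : ℤ) ≡ y [ZMOD f] ∨ (s * x : ℤ) ≡ -y [ZMOD f])]) ∧
    (∀ (e : ℤ) (u₁ u₂ w₁ w₂ f : ℕ), (e = 1 ∨ e = -1) → 1 ≤ u₁ → 1 ≤ u₂ → 1 ≤ w₁ → 1 ≤ w₂ →
      Nat.Coprime w₁ w₂ → f = u₁ * w₁ + u₂ * w₂ →
      ∃ x : ℕ, 1 ≤ x ∧ x < f ∧ (w₁ * x : ℤ) ≡ -u₂ [ZMOD f] ∧ (w₂ * x : ℤ) ≡ u₁ [ZMOD f] ∧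
        ∀ A : Matrix (Fin 2) (Fin 2) ℕ, Pool.Agent.R775.SSE.toZ A =
          !![(u₁ * w₁ : ℤ) + e, u₁ * w₂; u₂ * w₁, (u₂ * w₂ : ℤ) + e] →
          ∃ k ≤ w₁ + w₂ - 2, Chain2 k A (Bm e f x)) ∧
    (∀ A B : Matrix (Fin 2) (Fin 2) ℕ, 0 < A 0 1 → 0 < A 1 0 → 0 < B 0 1 → 0 < B 1 0 →
      ((Pool.Agent.R775.SSE.toZ A - 1).det = 0 ∨ (Pool.Agent.R775.SSE.toZ A + 1).det = 0) →
      List.TFAE [∃ k, Chain2 k A B, SSE A B, SE ℕ A B,
        SE ℤ (Pool.Agent.R775.SSE.toZ A) (Pool.Agent.R775.SSE.toZ B)]) ∧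
    (∀ (e : ℤ) (m q f : ℕ), (e = 1 ∨ e = -1) → 1 ≤ m → q.Prime → 2 ^ (2 * m) < 2 * q →
      (f : ℤ) = 2 * q - e →
      Chain2 m (Bm e f 1) (Bm e f (2 ^ m)) ∧
      ∀ (l : ℕ) (R S : Matrix (Fin 2) (Fin 2) ℤ),
        IsSE ℤ (Pool.Agent.R775.SSE.toZ (Bm e f 1)) (Pool.Agent.R775.SSE.toZ (Bm e f (2 ^ m)))
          l R S → m ≤ l) := by
  refine ⟨fun e f x y l he hx hxf hy hyf hl => family he hx hxf hy hyf hl, ?_, ?_,
    fun e m q f he hm hq hmq hf => lag_two he hm hq hmq hf⟩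
  · intro e u₁ u₂ w₁ w₂ f he h1 h2 h3 h4 hco hf
    obtain ⟨x, hx, hxf, e1, e2⟩ := exists_res h1 h2 h3 h4 hco hf
    exact ⟨x, hx, hxf, e1, e2, fun A hA =>
      reduce he (w₁ + w₂ - 2) u₁ u₂ w₁ w₂ f x h1 h2 h3 h4 hco (by omega) hf hx hxf e1 e2 A hA⟩
  · intro A B hA01 hA10 hB01 hB10 hA
    tfae_have 1 → 2 := fun ⟨k, h⟩ => ⟨k, h.chain⟩
    tfae_have 2 → 3 := Pool.Agent.R775.SSE.seN_of_sse
    tfae_have 3 → 4 := Pool.Agent.R775.SSE.seZ_of_seN
    tfae_have 4 → 1 := sse_of_seZ hA01 hA10 hB01 hB10 hA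
    tfae_finish

end Pool.Agent.Results.MP_993212_an.EigenvalueOne
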