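import Pool.Agent.R775.SSE.Lag

/-!
# MP_993212_an: primitive `3 × 3` matrices whose strong shift equivalences need exponential lag

`B T a` is the matrix with rows `(a + 2, a, 0)`, `(T - 2 - a, T - a, 1)`, `(1, 1, 0)`
(`1 ≤ a ≤ T - 2`); its eigenvalues are `2` and the two roots of `x² = T x + 1`. `SSE` is strong
shift equivalence over `ℕ`, `Chain k` a chain of `k` elementary equivalences (through matrices of
any size), `IsSE k A B l R S` a shift equivalence of lag `l` over the semiring `k`, `SE` its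
existence for some `l ≥ 1`, `toZ` the same matrix over `ℤ`.

* The matrices `B T a` are primitive, and `B T a`, `B T b` are strong shift equivalent over `ℕ` iff
  they are shift equivalent over `ℕ`, iff they are shift equivalent over `ℤ`, iff
  `2 ^ k a ≡ ± 2 ^ l b` modulo `2 T - 3` for some `k`, `l`.
* For `3 ^ n = 2 K + 1` and `T = 3 K + 3` there is `b` such that `B T 1` and `B T b` (entries at
  most `T`) are joined by a chain of at most `7 K` elementary equivalences, but every shift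
  equivalence over `ℕ` between them has lag at least `K`, and every chain of elementary
  equivalences between them has at least `K` members.
-/

set_option autoImplicit false

namespace Pool.Agent.Results.MP_993212_an.ExponentialLag

open Matrix Pool.Agent.R775.SSE

theorem result :
    (∀ T a b : ℕ, 5 ≤ T → 1 ≤ a → a ≤ T - 2 → 1 ≤ b → b ≤ T - 2 →
      (∀ i j, 0 < (B T a ^ 2) i j) ∧
      (SSE (B T a) (B T b) ↔ SE ℕ (B T a) (B T b)) ∧
      (SSE (B T a) (B T b) ↔ SE ℤ (toZ (B T a)) (toZ (B T b))) ∧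
      (SSE (B T a) (B T b) ↔ ∃ k l : ℕ, (2 ^ k * (a : ℤ) ≡ 2 ^ l * b [ZMOD 2 * T - 3]) ∨
        (2 ^ k * (a : ℤ) ≡ -(2 ^ l * b) [ZMOD 2 * T - 3]))) ∧
    (∀ n K : ℕ, 1 ≤ n → 3 ^ n = 2 * K + 1 → ∃ b : ℕ, 1 ≤ b ∧ b ≤ 3 * K + 1 ∧
      (∀ i j, B (3 * K + 3) 1 i j ≤ 3 * K + 3 ∧ B (3 * K + 3) b i j ≤ 3 * K + 3) ∧
      (∃ k ≤ 7 * K, Chain k ⟨3, B (3 * K + 3) 1⟩ ⟨3, B (3 * K + 3) b⟩) ∧
      (∀ (l : ℕ) (R S : Matrix (Fin 3) (Fin 3) ℕ),
        IsSE ℕ (B (3 * K + 3) 1) (B (3 * K + 3) b) l R S → K ≤ l) ∧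
      (∀ k : ℕ, Chain k ⟨3, B (3 * K + 3) 1⟩ ⟨3, B (3 * K + 3) b⟩ → K ≤ k)) := by
  refine ⟨?_, ?_⟩
  · intro T a b hT ha ha' hb hb'
    have h := classification hT ha ha' hb hb'
    exact ⟨B_pos hT ha ha', h.out 0 1, h.out 0 2, h.out 0 3⟩
  · intro n K hn hK
    have hK1 : 1 ≤ K := by
      by_contra hc
      have h0 : K = 0 := by omega
      subst h0
      have := Nat.one_lt_pow (n := n) (by omega) (show 1 < 3 by norm_num)
      omega
    obtain ⟨b, h1, h2, h3, h4⟩ := large_lag hn hK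
    refine ⟨b, h1, h2, ?_, h3, h4, ?_⟩
    · intro i j
      exact ⟨B_le (by omega) (by omega) (by omega) i j, B_le (by omega) h1 (by omega) i j⟩
    · intro k hk
      obtain ⟨R, S, h⟩ := hk.isSE
      exact h4 k R S h

end Pool.Agent.Results.MP_993212_an.ExponentialLag
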