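import Pool.Agent.R647.SS.Pack

/-!
# MP_993212_an: strong shift equivalence for irreducible matrices `A` with `A ∓ I` of rank one

For these matrices, of any size, strong shift equivalence over `ℕ`, shift equivalence over `ℕ` and
shift equivalence over `ℤ` coincide, and in sizes at least three the size, the trace and the gcd of
the entries of `A ∓ I` form a complete invariant.
-/

set_option autoImplicit false

namespace Pool.Agent.Results.MP_993212_an.RankOneShifts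

open Matrix

/-- Elementary equivalence of square matrices over `ℕ`: `A = R S`, `B = S R` for rectangular
matrices `R`, `S` over `ℕ`. -/
def Elem (X Y : Σ n : ℕ, Matrix (Fin n) (Fin n) ℕ) : Prop :=
  ∃ (R : Matrix (Fin X.1) (Fin Y.1) ℕ) (S : Matrix (Fin Y.1) (Fin X.1) ℕ),
    X.2 = R * S ∧ Y.2 = S * R

/-- Strong shift equivalence over `ℕ` (a finite chain of elementary equivalences). -/
def SSE {n m : ℕ} (A : Matrix (Fin n) (Fin n) ℕ) (B : Matrix (Fin m) (Fin m) ℕ) : Prop :=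
  Relation.TransGen Elem ⟨n, A⟩ ⟨m, B⟩

/-- Shift equivalence of square matrices over a semiring `k` (used for `k = ℕ` and `k = ℤ`). -/
def SE (k : Type) [Semiring k] {n m : ℕ} (A : Matrix (Fin n) (Fin n) k)
    (B : Matrix (Fin m) (Fin m) k) : Prop :=
  ∃ l, 1 ≤ l ∧ ∃ (R : Matrix (Fin n) (Fin m) k) (S : Matrix (Fin m) (Fin n) k),
    A ^ l = R * S ∧ B ^ l = S * R ∧ A * R = R * B ∧ S * A = B * S

/-- The matrix `A` viewed over `ℤ`. -/
def toZ {n : ℕ} (A : Matrix (Fin n) (Fin n) ℕ) : Matrix (Fin n) (Fin n) ℤ :=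
  A.map (Nat.cast : ℕ → ℤ)

/-- The integer matrix `A - μ I`. -/
def Sub {n : ℕ} (μ : ℤ) (A : Matrix (Fin n) (Fin n) ℕ) : Matrix (Fin n) (Fin n) ℤ :=
  toZ A - μ • (1 : Matrix (Fin n) (Fin n) ℤ)

/-- `A` has size at least two, is irreducible, and all `2 × 2` minors of `A - μ I` vanish. -/
def RankOne {n : ℕ} (μ : ℤ) (A : Matrix (Fin n) (Fin n) ℕ) : Prop :=
  2 ≤ n ∧ (∀ i j, ∃ k, (A ^ k) i j ≠ 0) ∧
    ∀ i j k l, Sub μ A i j * Sub μ A k l = Sub μ A i l * Sub μ A k j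

/-- The greatest common divisor of the entries of `A - μ I`. -/
def content {n : ℕ} (μ : ℤ) (A : Matrix (Fin n) (Fin n) ℕ) : ℕ :=
  Finset.univ.gcd fun p : Fin n × Fin n => (Sub μ A p.1 p.2).natAbs

/-- Either `μ = ± 1`, or the content of `A - μ I` is at least `|μ|` and prime to `μ`. -/
def Large {n : ℕ} (μ : ℤ) (A : Matrix (Fin n) (Fin n) ℕ) : Prop :=
  μ.natAbs = 1 ∨ (μ.natAbs ≤ content μ A ∧ (content μ A).Coprime μ.natAbs)

theorem result :
    -- all sizes, `μ = ± 1`: strong shift equivalence and shift equivalence coincide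
    (∀ (n m : ℕ) (A : Matrix (Fin n) (Fin n) ℕ) (B : Matrix (Fin m) (Fin m) ℕ),
      RankOne 1 A ∨ RankOne (-1) A → RankOne 1 B ∨ RankOne (-1) B →
      (SSE A B ↔ SE ℕ A B) ∧ (SE ℕ A B ↔ SE ℤ (toZ A) (toZ B))) ∧
    -- sizes at least three: the classification
    (∀ (n m : ℕ) (μ : ℤ) (A : Matrix (Fin n) (Fin n) ℕ) (B : Matrix (Fin m) (Fin m) ℕ),
      3 ≤ n → 3 ≤ m → μ ≠ 0 → RankOne μ A → RankOne μ B → Large μ A → Large μ B →
      (SSE A B ↔ SE ℕ A B) ∧ (SE ℕ A B ↔ SE ℤ (toZ A) (toZ B)) ∧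
      (SSE A B ↔ n = m ∧ A.trace = B.trace ∧ content μ A = content μ B)) := by
  have h1 : ∀ {n m : ℕ} {A : Matrix (Fin n) (Fin n) ℕ} {B : Matrix (Fin m) (Fin m) ℕ},
      SSE A B → SE ℕ A B := fun h =>
    Pool.Agent.Y321.SE2.se_of_transGen (fun _ _ hXY => hXY) h
  have h2 : ∀ {n m : ℕ} {A : Matrix (Fin n) (Fin n) ℕ} {B : Matrix (Fin m) (Fin m) ℕ},
      SE ℕ A B → SE ℤ (toZ A) (toZ B) := Pool.Agent.Y321.SE2.seZ_of_seN
  have h3 : ∀ {n m : ℕ} {A : Matrix (Fin n) (Fin n) ℕ} {B : Matrix (Fin m) (Fin m) ℕ},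
      Pool.Agent.TH441.SSE2.Q (toZ A) (toZ B) → SSE A B := fun {n m A B} h =>
    Pool.Agent.Y321.SE2.transGen_of_Q (fun _ _ R S => ⟨R, S, rfl, rfl⟩) A B h
  refine ⟨?_, ?_⟩
  · intro n m A B hA hB
    have h4 : SE ℤ (toZ A) (toZ B) → SSE A B := fun h =>
      h3 (Pool.Agent.R647.SS.final_one hA hB h)
    exact ⟨⟨h1, fun h => h4 (h2 h)⟩, ⟨h2, fun h => h1 (h4 h)⟩⟩
  · intro n m μ A B hn hm hμ hA hB lA lB
    obtain ⟨f1, f2⟩ := Pool.Agent.R647.SS.final_two hn hm hμ hA hB lA lB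
    have h4 : SE ℤ (toZ A) (toZ B) → SSE A B := fun h => h3 (f2 (f1 h))
    exact ⟨⟨h1, fun h => h4 (h2 h)⟩, ⟨h2, fun h => h1 (h4 h)⟩,
      ⟨fun h => f1 (h2 (h1 h)), fun h => h3 (f2 h)⟩⟩

end Pool.Agent.Results.MP_993212_an.RankOneShifts
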