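import Pool.Agent.R453.Sse.Trans

/-!
# Conjugacy of edge shifts: reduction to sparse 0-1 matrices with rare branching

For a bound `K` on size and entries, the graph of `T₁(A)` has vertices `(q, i, p)` on
`2 K^2 + 2` cyclic levels `q`.  On the levels `0, …, K^2` the vertex `i` is split step by step
into `(i, p)`, `p = j K + c` naming the edge number `c` from `i` to `j`; then `(i, j K + c)` is
joined with `(j, i K + c)`, and then the vertices `(j, p)` are merged again step by step.  Each
step is then followed by `D - 1` idle steps.  So `X_{T(A)}` is conjugate to the tower of constant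
height `(2 K^2 + 2) D` over `X_A`, and towers of the same constant height are conjugate iff their
bases are.
-/

set_option autoImplicit false

namespace Pool.Agent.Results.MP_993212_an.RareBranching

open Pool.R453.Sse

/-- **Reduction of the conjugacy problem to sparse graphs with rare branching.**
Let `D ≥ 2`.  There is a computable map `T` such that for each `K` and each matrix `A`, given by
the list `l` of its rows, `T K l` gives a 0-1 matrix of size `(2K²+2)·K·(K²+1)·D` in which all
total degrees (row sum plus column sum) are at most 3, and of the two ends of a path of at least 1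
and fewer than `D` edges at least one has total degree at most 2; and for matrices `A`, `B` of
sizes at most `K` with entries at most `K`, `X_A` is transitive iff `X_{T(A)}` is, and `X_A` and
`X_B` are conjugate iff `X_{T(A)}` and `X_{T(B)}` are conjugate.
Consequently there is an algorithm which decides conjugacy of `X_A` and `X_B` for all square
matrices `A`, `B` over `ℤ⁺` iff there is an algorithm which does this for those 0-1 matrices; and
the same with `X_A`, `X_B` topologically transitive. -/
theorem result (D : ℕ) (hD : 2 ≤ D) :
    (∃ T : ℕ → List (List ℕ) → List (List ℕ), Computable₂ T ∧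
      (∀ K l, (T K l).length = (2 * K ^ 2 + 2) * K * (K ^ 2 + 1) * D ∧ Sparse3 D (T K l)) ∧
      (∀ K l, Bd K l → (TransShift l ↔ TransShift (T K l))) ∧
      ∀ K l l', Bd K l → Bd K l' →
        (Conj (mat l) (mat l') ↔ Conj (mat (T K l)) (mat (T K l')))) ∧
    (ComputablePred (fun p : List (List ℕ) × List (List ℕ) => Conj (mat p.1) (mat p.2)) ↔
      ∃ f : List (List ℕ) × List (List ℕ) → Bool, Computable f ∧
        ∀ p, Sparse3 D p.1 → Sparse3 D p.2 → (f p = true ↔ Conj (mat p.1) (mat p.2))) ∧
    ((∃ f : List (List ℕ) × List (List ℕ) → Bool, Computable f ∧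
        ∀ p, TransShift p.1 → TransShift p.2 → (f p = true ↔ Conj (mat p.1) (mat p.2))) ↔
      ∃ f : List (List ℕ) × List (List ℕ) → Bool, Computable f ∧
        ∀ p, TransShift p.1 → TransShift p.2 → Sparse3 D p.1 → Sparse3 D p.2 →
          (f p = true ↔ Conj (mat p.1) (mat p.2))) := by
  classical
  refine ⟨⟨TI D, (TI_primrec D).to_comp, fun K l => ⟨?_, TI_sparse D K l⟩,
    fun K l h => trans_TI hD h, fun K l l' h h' => mainI_conj hD h h'⟩, ?_,
    decidable_iff_I hD TransShift fun K l h => trans_TI hD h⟩
  · rw [TI_length]; unfold NN; ring
  · have h := decidable_iff_I hD (fun _ => True) fun _ _ _ => Iff.rfl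
    simp only [true_implies] at h
    rw [← h]
    constructor
    · rintro ⟨hd, hc⟩
      exact ⟨fun p => decide (Conj (mat p.1) (mat p.2)), hc, fun p => by simp⟩
    · rintro ⟨f, hf, hfp⟩
      refine ⟨fun p => decidable_of_iff _ (hfp p), ?_⟩
      refine hf.of_eq fun p => ?_
      by_cases hp : f p = true
      · rw [hp]; symm; simpa using (hfp p).1 hp
      · have : ¬ Conj (mat p.1) (mat p.2) := fun hcj => hp ((hfp p).2 hcj)
        rw [Bool.not_eq_true] at hp
        rw [hp]; symm
        simpa using this

end Pool.Agent.Results.MP_993212_an.RareBranching
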